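import Pool.Agent.helper72.UP.Spec

/-! # Equal absolute values -/

set_option autoImplicit false

namespace Pool.Agent.helper72.UP

open Finset

private lemma EQC_key (n k : ℕ) (x : Fin n → ℝ) (c : ℝ) (hc : 0 < c) (hx : ∀ i, |x i| = c)
    (A B : Finset (Fin n)) (hA : ∀ a, a ∈ A ↔ 0 < x a) (hB : ∀ a, a ∈ B ↔ x a < 0) :
    zer x k = ∑ i ∈ Icc 1 (k / 2), (#A).choose i * (#B).choose i := by
  classical
  have hAc : ∀ i ∈ A, x i = c := fun i hi => by
    rw [← hx i, abs_of_pos ((hA i).1 hi)]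
  have hBc : ∀ i ∈ B, x i = -c := fun i hi => by
    rw [← hx i, abs_of_neg ((hB i).1 hi)]
    ring
  have hne : ∀ i, x i ≠ 0 := fun i h => by
    have h1 := hx i
    rw [h, abs_zero] at h1
    exact hc.ne h1
  have hAB : Disjoint A B := by
    rw [Finset.disjoint_left]
    intro a h1 h2
    have h3 := (hA a).1 h1
    have h4 := (hB a).1 h2
    linarith
  have hmem : ∀ a, a ∈ A ∨ a ∈ B := fun a => by
    rcases lt_or_gt_of_ne (hne a) with h | h
    · exact Or.inr ((hB a).2 h)
    · exact Or.inl ((hA a).2 h)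
  have hs : ∀ s : Finset (Fin n), s ∩ A ∪ s ∩ B = s := by
    intro s
    ext a
    rw [mem_union, mem_inter, mem_inter]
    have := hmem a
    tauto
  have hd : ∀ s : Finset (Fin n), Disjoint (s ∩ A) (s ∩ B) := fun s =>
    hAB.mono inter_subset_right inter_subset_right
  have hcard : ∀ s : Finset (Fin n), #s = #(s ∩ A) + #(s ∩ B) := fun s => by
    rw [← card_union_of_disjoint (hd s), hs s]
  have hsum : ∀ s : Finset (Fin n), ∑ i ∈ s, x i = c * ((#(s ∩ A) : ℕ) : ℝ) - c * ((#(s ∩ B) : ℕ) : ℝ) := by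
    intro s
    calc ∑ i ∈ s, x i = ∑ i ∈ s ∩ A ∪ s ∩ B, x i := by rw [hs s]
      _ = ∑ i ∈ s ∩ A, x i + ∑ i ∈ s ∩ B, x i := sum_union (hd s)
      _ = ∑ i ∈ s ∩ A, c + ∑ i ∈ s ∩ B, (-c) := by
          rw [sum_congr rfl (fun i hi => hAc i (mem_inter.1 hi).2),
            sum_congr rfl (fun i hi => hBc i (mem_inter.1 hi).2)]
      _ = c * ((#(s ∩ A) : ℕ) : ℝ) - c * ((#(s ∩ B) : ℕ) : ℝ) := by
          rw [sum_const, sum_const, nsmul_eq_mul, nsmul_eq_mul]
          ring
  have hzero : ∀ s : Finset (Fin n), ∑ i ∈ s, x i = 0 ↔ #(s ∩ A) = #(s ∩ B) := by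
    intro s
    rw [hsum s, sub_eq_zero]
    constructor
    · intro h
      have h1 := mul_left_cancel₀ hc.ne' h
      exact_mod_cast h1
    · intro h
      rw [h]
  unfold zer
  rw [Finset.card_eq_sum_card_fiberwise (f := fun s => #(s ∩ A)) (t := Icc 1 (k / 2))]
  · refine sum_congr rfl fun i hi => ?_
    obtain ⟨hi1, hi2⟩ := mem_Icc.1 hi
    rw [← card_powersetCard i A, ← card_powersetCard i B, ← card_product]
    refine card_bij' (fun s _ => (s ∩ A, s ∩ B)) (fun p _ => p.1 ∪ p.2) ?_ ?_ ?_ ?_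
    · intro s h
      rw [mem_filter, mem_filter] at h
      rw [mem_product, mem_powersetCard, mem_powersetCard]
      obtain ⟨⟨_, _, _, h3⟩, h4⟩ := h
      exact ⟨⟨inter_subset_right, h4⟩, inter_subset_right, ((hzero s).1 h3).symm.trans h4⟩
    · intro p h
      rw [mem_product, mem_powersetCard, mem_powersetCard] at h
      obtain ⟨⟨h1, h2⟩, h3, h4⟩ := h
      have e1 : (p.1 ∪ p.2) ∩ A = p.1 := by
        ext a
        rw [mem_inter, mem_union]
        constructor
        · rintro ⟨h5 | h5, h6⟩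
          · exact h5
          · exact absurd (h3 h5) (Finset.disjoint_left.1 hAB h6)
        · exact fun h5 => ⟨Or.inl h5, h1 h5⟩
      have e2 : (p.1 ∪ p.2) ∩ B = p.2 := by
        ext a
        rw [mem_inter, mem_union]
        constructor
        · rintro ⟨h5 | h5, h6⟩
          · exact absurd h6 (Finset.disjoint_left.1 hAB (h1 h5))
          · exact h5
        · exact fun h5 => ⟨Or.inr h5, h3 h5⟩
      have e3 := hcard (p.1 ∪ p.2)
      rw [e1, e2, h2, h4] at e3
      rw [mem_filter, mem_filter]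
      refine ⟨⟨mem_univ _, ?_, ?_, ?_⟩, ?_⟩
      · rw [← card_pos]
        omega
      · omega
      · rw [hzero, e1, e2, h2, h4]
      · rw [e1, h2]
    · intro s _
      exact hs s
    · intro p h
      rw [mem_product, mem_powersetCard, mem_powersetCard] at h
      obtain ⟨⟨h1, h2⟩, h3, h4⟩ := h
      have e1 : (p.1 ∪ p.2) ∩ A = p.1 := by
        ext a
        rw [mem_inter, mem_union]
        constructor
        · rintro ⟨h5 | h5, h6⟩
          · exact h5
          · exact absurd (h3 h5) (Finset.disjoint_left.1 hAB h6)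
        · exact fun h5 => ⟨Or.inl h5, h1 h5⟩
      have e2 : (p.1 ∪ p.2) ∩ B = p.2 := by
        ext a
        rw [mem_inter, mem_union]
        constructor
        · rintro ⟨h5 | h5, h6⟩
          · exact absurd h6 (Finset.disjoint_left.1 hAB (h1 h5))
          · exact h5
        · exact fun h5 => ⟨Or.inr h5, h3 h5⟩
      exact Prod.ext e1 e2
  · intro s h
    obtain ⟨_, h1, h2, h3⟩ := mem_filter.1 h
    have h4 := (hzero s).1 h3
    have h5 := hcard s
    have h6 := card_pos.2 h1
    change #(s ∩ A) ∈ Icc 1 (k / 2)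
    rw [mem_Icc]
    omega

theorem EQC : EQC_stmt := by
  intro n k x c hc hx
  exact EQC_key n k x c hc hx _ _ (fun a => by simp) (fun a => by simp)

end Pool.Agent.helper72.UP
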